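import Mathlib

universe w v u

namespace Pool.Agent.FS.FinDim

open CategoryTheory Abelian Limits Polynomial

theorem redei {M : Type*} [CommMonoid M] (S : Submonoid M) (hS : S.FG) (c : ℕ → Con M)
    (hc : ∀ n m, n ≤ m → ∀ x y, c n x y → c m x y) :
    ∃ N, ∀ n, ∀ x ∈ S, ∀ y ∈ S, c n x y → c N x y := by
  have : Monoid.FG S := (Monoid.fg_iff_submonoid_fg S).2 hS
  have : IsNoetherianRing (MonoidAlgebra ℤ S) := Algebra.FiniteType.isNoetherianRing ℤ _
  let I : ℕ →o Ideal (MonoidAlgebra ℤ S) :=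
    ⟨fun n => Ideal.span {z | ∃ x y : S, c n x y ∧
        z = MonoidAlgebra.single x 1 - MonoidAlgebra.single y 1},
      fun n m h => Ideal.span_mono fun z ⟨x, y, h1, h2⟩ => ⟨x, y, hc n m h _ _ h1, h2⟩⟩
  obtain ⟨N, hN⟩ := monotone_stabilizes_iff_noetherian.2 this I
  refine ⟨N, fun n x hx y hy h => ?_⟩
  rcases le_total n N with hn | hn
  · exact hc n N hn _ _ h
  have h1 : (MonoidAlgebra.single ⟨x, hx⟩ 1 - MonoidAlgebra.single ⟨y, hy⟩ 1 :
      MonoidAlgebra ℤ S) ∈ I N := by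
    rw [hN n hn]
    exact Ideal.subset_span ⟨⟨x, hx⟩, ⟨y, hy⟩, h, rfl⟩
  let φ := MonoidAlgebra.mapDomainRingHom ℤ ((c N).mk'.comp S.subtype)
  have e : ∀ a : S, φ (MonoidAlgebra.single a 1) = MonoidAlgebra.single ((c N).mk' a) 1 :=
    fun a => MonoidAlgebra.mapDomain_single
  have h2 : I N ≤ RingHom.ker φ := by
    refine Ideal.span_le.2 ?_
    rintro z ⟨a, b, hab, rfl⟩
    have : (c N).mk' a = (c N).mk' b := (Con.eq _).2 hab
    simp only [SetLike.mem_coe, RingHom.mem_ker, map_sub, e, this, sub_self]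
  have h3 := h2 h1
  rw [RingHom.mem_ker, map_sub, e, e, sub_eq_zero] at h3
  exact (Con.eq _).1 (MonoidAlgebra.single_left_injective (one_ne_zero) h3)

section Classes

variable {C : Type u} [Category.{v} C] [Abelian C]

variable (C) in
/-- isomorphism classes -/
def Cl : Type u := Quotient (isIsomorphicSetoid C)

/-- the class of an object -/
def cl (X : C) : Cl C := Quotient.mk _ X

omit [Abelian C] in
theorem cl_eq {X Y : C} (e : X ≅ Y) : cl X = cl Y := Quotient.sound ⟨e⟩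

open ZeroObject in
noncomputable instance clMonoid : CommMonoid (Cl C) where
  mul := Quotient.map₂ (fun X Y => X ⊞ Y) fun _ _ ⟨e⟩ _ _ ⟨e'⟩ => ⟨biprod.mapIso e e'⟩
  one := cl 0
  mul_assoc := by
    rintro ⟨X⟩ ⟨Y⟩ ⟨Z⟩
    exact cl_eq (biprod.associator X Y Z)
  one_mul := by
    rintro ⟨X⟩
    exact cl_eq (isoZeroBiprod (isZero_zero C)).symm
  mul_one := by
    rintro ⟨X⟩
    exact cl_eq (isoBiprodZero (isZero_zero C)).symm
  mul_comm := by
    rintro ⟨X⟩ ⟨Y⟩
    exact cl_eq (biprod.braiding X Y)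

theorem cl_mul (X Y : C) : cl X * cl Y = cl (X ⊞ Y) := rfl

theorem cl_zero {X : C} (h : IsZero X) : cl X = 1 := cl_eq (h.iso (isZero_zero C))

end Classes

variable (k : Type*) [Field k] {C : Type u} [Category.{v} C] [Abelian C] [Linear k C]
  [HasExt.{w} C]

/-- families of linear maps between Ext groups -/
abbrev Fam (X Y : C) := ∀ (m : ℕ) (T : C), Ext.{w} X T m →ₗ[k] Ext.{w} Y T m

variable {k}

/-- compatibility with Yoneda products from degree `n` on -/
def IsNat (n : ℕ) {X Y : C} (φ : Fam.{w} k X Y) : Prop :=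
  ∀ m, n ≤ m → ∀ (T T' : C) (j p : ℕ) (h : m + j = p) (x : Ext.{w} X T m) (η : Ext.{w} T T' j),
    φ p T' (x.comp η h) = (φ m T x).comp η h

variable (k) in
/-- precomposition with a morphism -/
noncomputable def pull {X Y : C} (f : Y ⟶ X) : Fam.{w} k X Y := fun m _ =>
  { toFun := fun x => (Ext.mk₀ f).comp x (zero_add m)
    map_add' := fun _ _ => Ext.comp_add _ _ _ _
    map_smul' := fun _ _ => Ext.comp_smul _ _ _ _ }

theorem pull_apply {X Y : C} (f : Y ⟶ X) (m : ℕ) (T : C) (x : Ext.{w} X T m) :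
    pull k f m T x = (Ext.mk₀ f).comp x (zero_add m) := rfl

theorem pull_pull {X Y Z : C} (f : Y ⟶ X) (g : Z ⟶ Y) (m : ℕ) (T : C) (x : Ext.{w} X T m) :
    pull k g m T (pull k f m T x) = pull k (g ≫ f) m T x := Ext.mk₀_comp_mk₀_assoc _ _ _

theorem pull_id {X : C} (m : ℕ) (T : C) (x : Ext.{w} X T m) : pull k (𝟙 X) m T x = x :=
  Ext.mk₀_id_comp _

theorem pull_zero {X Y : C} (m : ℕ) (T : C) (x : Ext.{w} X T m) :
    pull k (0 : Y ⟶ X) m T x = 0 := by
  rw [pull_apply, Ext.mk₀_zero, Ext.zero_comp]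

theorem pull_add {X Y : C} (f g : Y ⟶ X) (m : ℕ) (T : C) (x : Ext.{w} X T m) :
    pull k (f + g) m T x = pull k f m T x + pull k g m T x := by
  rw [pull_apply, Ext.mk₀_add, Ext.add_comp]; rfl

theorem pull_sum {X Y : C} {ι : Type} [Fintype ι] (f : ι → (Y ⟶ X)) (m : ℕ) (T : C)
    (x : Ext.{w} X T m) : pull k (∑ l, f l) m T x = ∑ l, pull k (f l) m T x := by
  rw [pull_apply, Ext.mk₀_sum, Ext.sum_comp]; rfl

theorem isNat_pull (n : ℕ) {X Y : C} (f : Y ⟶ X) : IsNat n (pull.{w} k f) :=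
  fun m _ _ _ j p h x η => (Ext.comp_assoc _ x η (zero_add m) h (by omega)).symm

theorem IsNat.comp {n : ℕ} {X Y Z : C} {φ : Fam.{w} k X Y} {ψ : Fam.{w} k Y Z} (h1 : IsNat n φ)
    (h2 : IsNat n ψ) : IsNat n (fun m T => ψ m T ∘ₗ φ m T) := fun m hm T T' j p h x η => by
  simp only [LinearMap.comp_apply]
  rw [h1 m hm, h2 m hm]

theorem IsNat.add {n : ℕ} {X Y : C} {φ ψ : Fam.{w} k X Y} (h1 : IsNat n φ)
    (h2 : IsNat n ψ) : IsNat n (fun m T => φ m T + ψ m T) := fun m hm T T' j p h x η => by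
  simp only [LinearMap.add_apply]
  rw [h1 m hm, h2 m hm, Ext.add_comp]

theorem IsNat.aeval {n : ℕ} {X : C} {φ : Fam.{w} k X X} (h1 : IsNat n φ) (q : k[X]) :
    IsNat n (fun m T => (aeval (φ m T : Module.End k _) q : Module.End k _)) := by
  intro m hm T T' j p h x η
  induction q using Polynomial.induction_on generalizing x with
  | C a => simp [Module.algebraMap_end_apply, Ext.smul_comp]
  | add q r hq hr => simp only [map_add, LinearMap.add_apply, hq, hr, Ext.add_comp]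
  | monomial i a ih =>
    have e : ∀ (V : Type w) [AddCommGroup V] [Module k V] (u : Module.End k V) (y : V),
        Polynomial.aeval u (Polynomial.C a * Polynomial.X ^ (i + 1)) y
          = Polynomial.aeval u (Polynomial.C a * Polynomial.X ^ i) (u y) := by
      intro V _ _ u y
      rw [pow_succ, ← mul_assoc, map_mul, aeval_X, Module.End.mul_apply]
    beta_reduce at ih ⊢
    rw [e, e, h1 m hm, ih]

variable (k) in
/-- the Ext functors agree from degree `n` on -/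
def Eqv (n : ℕ) (X Y : C) : Prop :=
  ∃ φ : Fam.{w} k X Y, IsNat n φ ∧ ∀ m, n ≤ m → ∀ T, Function.Bijective (φ m T)

theorem Eqv.inv {n : ℕ} {X Y : C} {φ : Fam.{w} k X Y} (h1 : IsNat n φ)
    (h2 : ∀ m, n ≤ m → ∀ T, Function.Bijective (φ m T)) :
    ∃ ψ : Fam.{w} k Y X, IsNat n ψ ∧ ∀ m, n ≤ m → ∀ T,
      (∀ x, ψ m T (φ m T x) = x) ∧ ∀ y, φ m T (ψ m T y) = y := by
  classical
  let ψ : Fam.{w} k Y X := fun m T =>
    if h : n ≤ m then (LinearEquiv.ofBijective _ (h2 m h T)).symm.toLinearMap else 0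
  have e : ∀ m, n ≤ m → ∀ T, (∀ x, ψ m T (φ m T x) = x) ∧ ∀ y, φ m T (ψ m T y) = y := by
    intro m hm T
    simp only [ψ, dif_pos hm]
    exact ⟨(LinearEquiv.ofBijective _ (h2 m hm T)).symm_apply_apply,
      (LinearEquiv.ofBijective _ (h2 m hm T)).apply_symm_apply⟩
  refine ⟨ψ, fun m hm T T' j p h y η => (h2 p (by omega) T').1 ?_, e⟩
  rw [(e p (by omega) T').2, h1 m hm, (e m hm T).2]

theorem Eqv.symm {n : ℕ} {X Y : C} (h : Eqv.{w} k n X Y) : Eqv.{w} k n Y X := by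
  obtain ⟨φ, h1, h2⟩ := h
  obtain ⟨ψ, h3, h4⟩ := Eqv.inv h1 h2
  exact ⟨ψ, h3, fun m hm T => Function.bijective_iff_has_inverse.2 ⟨φ m T, (h4 m hm T).2,
    (h4 m hm T).1⟩⟩

theorem Eqv.trans {n : ℕ} {X Y Z : C} (h : Eqv.{w} k n X Y) (h' : Eqv.{w} k n Y Z) :
    Eqv.{w} k n X Z := by
  obtain ⟨φ, h1, h2⟩ := h
  obtain ⟨ψ, h3, h4⟩ := h'
  exact ⟨_, h1.comp h3, fun m hm T => (h4 m hm T).comp (h2 m hm T)⟩

theorem Eqv.mono {n m : ℕ} (hnm : n ≤ m) {X Y : C} (h : Eqv.{w} k n X Y) : Eqv.{w} k m X Y := by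
  obtain ⟨φ, h1, h2⟩ := h
  exact ⟨φ, fun p hp => h1 p (hnm.trans hp), fun p hp => h2 p (hnm.trans hp)⟩

theorem Eqv.of_iso (n : ℕ) {X Y : C} (e : X ≅ Y) : Eqv.{w} k n X Y :=
  ⟨pull k e.inv, isNat_pull n _, fun m _ T => Function.bijective_iff_has_inverse.2
    ⟨pull k e.hom m T, fun x => by rw [pull_pull, e.hom_inv_id, pull_id],
      fun x => by rw [pull_pull, e.inv_hom_id, pull_id]⟩⟩

theorem Eqv.biprod {n : ℕ} {X Y : C} (h : Eqv.{w} k n X Y) (Z : C) :
    Eqv.{w} k n (X ⊞ Z) (Y ⊞ Z) := by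
  obtain ⟨φ, h1, h2⟩ := h
  obtain ⟨ψ, h3, h4⟩ := Eqv.inv h1 h2
  let F : ∀ {X Y : C}, Fam.{w} k X Y → Fam.{w} k (X ⊞ Z) (Y ⊞ Z) := fun φ m T =>
    pull k biprod.fst m T ∘ₗ (φ m T ∘ₗ pull k biprod.inl m T)
      + pull k biprod.snd m T ∘ₗ pull k biprod.inr m T
  have key : ∀ {X Y : C} (φ : Fam.{w} k X Y) (ψ : Fam.{w} k Y X) (m : ℕ) (T : C),
      (∀ x, ψ m T (φ m T x) = x) → ∀ x, F ψ m T (F φ m T x) = x := by
    intro X Y φ ψ m T h x
    simp only [F, LinearMap.add_apply, LinearMap.comp_apply, map_add, pull_pull, biprod.inl_fst,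
      biprod.inl_snd, biprod.inr_fst, biprod.inr_snd, pull_id, pull_zero, h,
      biprod.inl_snd_assoc, biprod.inr_snd_assoc, Limits.zero_comp, map_zero, add_zero, zero_add]
    rw [← pull_add, biprod.total, pull_id]
  exact ⟨F φ, (((isNat_pull n _).comp h1).comp (isNat_pull n _)).add
    ((isNat_pull n _).comp (isNat_pull n _)), fun m hm T =>
      Function.bijective_iff_has_inverse.2 ⟨F ψ m T, key φ ψ m T (h4 m hm T).1,
        key ψ φ m T (h4 m hm T).2⟩⟩

variable (k) in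
/-- the congruence given by `Eqv` -/
def con (n : ℕ) : Con (Cl C) where
  r x y := ∀ X Y : C, cl X = x → cl Y = y → Eqv.{w} k n X Y
  iseqv :=
    ⟨fun _ X Y h h' => Eqv.of_iso n (Quotient.exact (h.trans h'.symm)).some,
      fun h X Y h1 h2 => (h Y X h2 h1).symm,
      fun {_ y _} h h' X Z h1 h2 => by
        obtain ⟨Y⟩ := y
        exact (h X Y h1 rfl).trans (h' Y Z rfl h2)⟩
  mul' := by
    rintro ⟨X⟩ ⟨Y⟩ ⟨Z⟩ ⟨T⟩ h h' U V h1 h2
    have a := (h X Y rfl rfl).biprod Z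
    have b := (h' Z T rfl rfl).biprod Y
    exact (Eqv.of_iso n (Quotient.exact h1).some).trans (a.trans
      ((Eqv.of_iso n (biprod.braiding Y Z)).trans (b.trans
        ((Eqv.of_iso n (biprod.braiding T Y)).trans
          (Eqv.of_iso n (Quotient.exact h2).some).symm))))

theorem con_of_eqv {n : ℕ} {X Y : C} (h : Eqv.{w} k n X Y) : con.{w} k n (cl X) (cl Y) :=
  fun _ _ h1 h2 => (Eqv.of_iso n (Quotient.exact h1).some).trans
    (h.trans (Eqv.of_iso n (Quotient.exact h2).some).symm)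

section Main

variable (fg : C → Prop)
  (hres : ∀ X, fg X → ∃ (K P : C) (f : K ⟶ P) (g : P ⟶ X) (z : f ≫ g = 0),
    (ShortComplex.mk f g z).ShortExact ∧ Projective P ∧ fg K)
  (hfd : ∀ X Y, fg X → fg Y → FiniteDimensional k (X ⟶ Y))

include hres in
theorem exists_syz (X : C) (hX : fg X) (n : ℕ) : ∃ (O : C) (ω : Ext.{w} X O n), fg O ∧
    ∀ (j m : ℕ) (h : n + j = m) (T : C) (x : Ext.{w} X T m),
      ∃ η : Ext.{w} O T j, ω.comp η h = x := by
  induction n with
  | zero =>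
    refine ⟨X, Ext.mk₀ (𝟙 X), hX, fun j m h T x => ?_⟩
    obtain rfl : j = m := by omega
    exact ⟨x, Ext.mk₀_id_comp x⟩
  | succ n ih =>
    obtain ⟨O, ω, hO, h⟩ := ih
    obtain ⟨K, P, f, g, z, hS, hP, hK⟩ := hres O hO
    refine ⟨K, ω.comp hS.extClass rfl, hK, fun j m hm T x => ?_⟩
    obtain ⟨η, rfl⟩ := h (1 + j) m (by omega) T x
    obtain ⟨η', rfl⟩ := Ext.contravariant_sequence_exact₃ hS T η
      (Ext.eq_zero_of_hasProjectiveDimensionLT (X := P) _ 1 (by omega)) rfl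
    exact ⟨η', Ext.comp_assoc _ _ _ _ _ (by omega)⟩

include hres hfd in
theorem fd_ext (X Y : C) (hX : fg X) (hY : fg Y) (n : ℕ) :
    FiniteDimensional k (Ext.{w} X Y n) := by
  obtain ⟨O, ω, hO, h⟩ := exists_syz.{w} fg hres X hX n
  have := hfd O Y hO hY
  have : FiniteDimensional k (Ext.{w} O Y 0) := (Ext.linearEquiv₀ (R := k)).symm.finiteDimensional
  let L : Ext.{w} O Y 0 →ₗ[k] Ext.{w} X Y n :=
    { toFun := fun η => ω.comp η (add_zero n)
      map_add' := fun _ _ => Ext.comp_add _ _ _ _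
      map_smul' := fun _ _ => Ext.comp_smul _ _ _ _ }
  exact Module.Finite.of_surjective L (h 0 n (add_zero n) Y)

include hres hfd in
theorem vanish (G : C) (hG : fg G) (n : ℕ) : ∃ N, n ≤ N ∧ ∀ φ : Fam.{w} k G G, IsNat n φ →
    ∀ d, (∀ m, d ≤ m → ∀ T x, φ m T x = 0) → ∀ m, N ≤ m → ∀ T x, φ m T x = 0 := by
  obtain ⟨O, ω, hO, h⟩ := exists_syz.{w} fg hres G hG n
  have := fd_ext (k := k) fg hres hfd G O hG hO n
  let I : ℕ →o Submodule k (Ext.{w} G O n) :=
    ⟨fun d =>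
      { carrier := {y | ∀ (j m : ℕ) (h : n + j = m), d ≤ m → ∀ (T : C) (η : Ext.{w} O T j),
          y.comp η h = 0}
        add_mem' := fun ha hb j m h hm T η => by
          rw [Ext.add_comp, ha j m h hm, hb j m h hm, add_zero]
        zero_mem' := fun j m h _ T η => Ext.zero_comp _ _ _ _ _
        smul_mem' := fun c y hy j m h hm T η => by
          rw [Ext.smul_comp, hy j m h hm, smul_zero] },
      fun d d' hd y hy j m h hm T η => hy j m h (hd.trans hm) T η⟩
  obtain ⟨N, hN⟩ := monotone_stabilizes_iff_noetherian.2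
    (inferInstance : IsNoetherian k (Ext.{w} G O n)) I
  refine ⟨max n N, le_max_left _ _, fun φ hφ d hd m hm T x => ?_⟩
  have h1 : φ n O ω ∈ I (max d N) := fun j p hp hdp T η => by
    rw [← hφ n le_rfl]
    exact hd p ((le_max_left _ _).trans hdp) _ _
  rw [← hN _ (le_max_right _ _)] at h1
  obtain ⟨j, rfl⟩ := Nat.exists_eq_add_of_le ((le_max_left _ _).trans hm)
  obtain ⟨η, rfl⟩ := h j _ rfl T x
  rw [hφ n le_rfl]
  exact h1 j _ rfl ((le_max_right _ _).trans hm) T η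

include hres hfd in
theorem igusa_todorov (s : Finset (Cl C)) (G : C) (hG : fg G) :
    ∃ N, ∀ S : ShortComplex C, S.ShortExact → cl S.X₂ ∈ Submonoid.closure (s : Set (Cl C)) →
      cl S.X₃ ∈ Submonoid.closure (s : Set (Cl C)) → fg S.X₃ →
      (∃ (r : ℕ) (i : Fin r → (S.X₃ ⟶ G)) (p : Fin r → (G ⟶ S.X₃)), ∑ l, i l ≫ p l = 𝟙 _) →
      ∀ d, HasProjectiveDimensionLT S.X₁ d → HasProjectiveDimensionLT S.X₁ N := by
  obtain ⟨n, hn⟩ := redei (Submonoid.closure (s : Set (Cl C))) ⟨s, rfl⟩ (con.{w} k)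
    fun a b hab x y h X Y h1 h2 => (h X Y h1 h2).mono hab
  obtain ⟨N, hnN, hN⟩ := vanish (k := k) fg hres hfd G hG n
  refine ⟨N, fun S hS h2 h3 f3 ⟨r, i, p, hip⟩ d hd => ?_⟩
  have b1 : ∀ m, d + 1 ≤ m → ∀ T, Function.Bijective (pull.{w} k S.g m T) := by
    intro m hm T
    obtain ⟨m, rfl⟩ : ∃ m', m = 1 + m' := ⟨m - 1, by omega⟩
    refine ⟨(injective_iff_map_eq_zero _).2 fun x hx => ?_, fun y => ?_⟩
    · obtain ⟨x₁, rfl⟩ := Ext.contravariant_sequence_exact₃ hS T x hx rfl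
      rw [x₁.eq_zero_of_hasProjectiveDimensionLT d (by omega), Ext.comp_zero]
    · exact Ext.contravariant_sequence_exact₂ hS T y
        (Ext.eq_zero_of_hasProjectiveDimensionLT _ d (by omega))
  obtain ⟨h, hh, hb⟩ : Eqv.{w} k n S.X₂ S.X₃ :=
    (hn (d + 1) _ h3 _ h2 (con_of_eqv ⟨_, isNat_pull _ _, b1⟩) _ _ rfl rfl).symm
  let u : Fam.{w} k S.X₃ S.X₃ := fun m T => h m T ∘ₗ pull k S.g m T
  have hu : IsNat n u := (isNat_pull n _).comp hh
  obtain ⟨O, ω, hO, hω⟩ := exists_syz.{w} fg hres S.X₃ f3 n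
  have := fd_ext (k := k) fg hres hfd S.X₃ O f3 hO n
  obtain ⟨q, hq, hq0⟩ := exists_eq_pow_rootMultiplicity_mul_and_not_dvd
    (LinearMap.charpoly (u n O)) (LinearMap.charpoly_monic _).ne_zero 0
  generalize rootMultiplicity 0 (LinearMap.charpoly (u n O)) = t at hq
  rw [map_zero, sub_zero] at hq hq0
  rw [X_dvd_iff] at hq0
  have z1 : ∀ m, n ≤ m → ∀ T x, (aeval (u m T : Module.End k _) (X ^ t * q : k[X])) x = 0 := by
    intro m hm T x
    obtain ⟨j, rfl⟩ := Nat.exists_eq_add_of_le hm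
    obtain ⟨η, rfl⟩ := hω j _ rfl T x
    have e := hu.aeval (X ^ t * q) n le_rfl O T j _ rfl ω η
    beta_reduce at e
    rw [e, ← hq, LinearMap.aeval_self_charpoly, LinearMap.zero_apply, Ext.zero_comp]
  let W : Fam.{w} k S.X₃ S.X₃ := fun m T => (aeval (u m T : Module.End k _) q : Module.End k _)
  have hW : IsNat n W := hu.aeval q
  have z2 : ∀ m, max n (d + 1) ≤ m → ∀ T x, W m T x = 0 := by
    intro m hm T x
    have i1 : Function.Injective (u m T) :=
      (hb m ((le_max_left _ _).trans hm) T).1.comp (b1 m ((le_max_right _ _).trans hm) T).1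
    have e := z1 m ((le_max_left _ _).trans hm) T x
    rw [map_mul, map_pow, aeval_X, Module.End.mul_apply] at e
    exact (injective_iff_map_eq_zero _).1 (Module.End.iterate_injective i1 t) _ e
  have tot : ∀ m T (x : Ext.{w} S.X₃ T m), x = ∑ l, pull k (i l) m T (pull k (p l) m T x) := by
    intro m T x
    simp only [pull_pull]
    rw [← pull_sum, hip, pull_id]
  have z3 : ∀ m, N ≤ m → ∀ T x, W m T x = 0 := by
    intro m hm T x
    have e : ∀ l l' y, pull k (p l') m T (W m T (pull k (i l) m T y)) = 0 := fun l l' y =>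
      hN _ (((isNat_pull n (i l)).comp hW).comp (isNat_pull n (p l'))) (max n (d + 1))
        (fun m hm T y => by simp only [LinearMap.comp_apply, z2 m hm, map_zero]) m hm T y
    rw [tot m T x, map_sum]
    refine Finset.sum_eq_zero fun l _ => ?_
    rw [tot m T (W m T _)]
    exact Finset.sum_eq_zero fun l' _ => by rw [e, map_zero]
  have b2 : ∀ m, N ≤ m → ∀ T, Function.Bijective (u m T) := by
    intro m hm T
    have e1 : ∀ x, u m T (aeval (u m T : Module.End k _) q.divX x) + q.coeff 0 • x = 0 := by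
      intro x
      have e := z3 m hm T x
      simp only [W] at e
      rwa [← X_mul_divX_add q, map_add, map_mul, aeval_X, aeval_C, LinearMap.add_apply,
        Module.End.mul_apply, Module.algebraMap_end_apply] at e
    have e2 : ∀ x, aeval (u m T : Module.End k _) q.divX (u m T x) + q.coeff 0 • x = 0 := by
      intro x
      have e := z3 m hm T x
      simp only [W] at e
      rwa [← divX_mul_X_add q, map_add, map_mul, aeval_X, aeval_C, LinearMap.add_apply,
        Module.End.mul_apply, Module.algebraMap_end_apply] at e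
    refine ⟨(injective_iff_map_eq_zero _).2 fun x hx => ?_, fun y => ?_⟩
    · have e := e2 x
      rw [hx, map_zero, zero_add] at e
      exact (smul_eq_zero.1 e).resolve_left hq0
    · refine ⟨-((q.coeff 0)⁻¹ • aeval (u m T : Module.End k _) q.divX y), ?_⟩
      rw [map_neg, map_smul, eq_neg_of_add_eq_zero_left (e1 y), smul_neg, neg_neg,
        inv_smul_smul₀ hq0]
  have b3 : ∀ m, N ≤ m → ∀ T, Function.Bijective (pull.{w} k S.g m T) := fun m hm T =>
    (Function.Bijective.of_comp_iff' (hb m (hnN.trans hm) T) _).1 (b2 m hm T)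
  refine HasProjectiveDimensionLT.mk.{w} fun m hm T x => ?_
  have e : hS.extClass.comp x (rfl : 1 + m = 1 + m) = 0 :=
    (injective_iff_map_eq_zero _).1 (b3 (1 + m) (by omega) T).1 _ (hS.comp_extClass_assoc x rfl)
  obtain ⟨x₂, rfl⟩ := Ext.contravariant_sequence_exact₁ hS T x rfl e
  obtain ⟨x₃, rfl⟩ := (b3 m hm T).2 x₂
  exact (pull_pull (k := k) S.g S.f m T x₃).trans (by rw [S.zero, pull_zero])

end Main

end Pool.Agent.FS.FinDim
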