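import Pool.Agent.Lib.MP_c55f2d_al.QMain
import Pool.Agent.FS.FinDim.Abs

universe u

namespace Pool.Agent.FS.FinDim

open CategoryTheory Limits Pool.Agent.Lib.MP_c55f2d_al.Q

variable {k A : Type u} [Field k] [Ring A] [Algebra k A]

theorem cl_mem {S : Submonoid (Cl (ModuleCat.{u} A))}
    (hG : ∀ X : FD k A, Indec A X → InFac A X → cl (ModuleCat.of A X) ∈ S)
    (X : FD k A) (hX : InFac A X) : cl (ModuleCat.of A X) ∈ S := by
  induction hd : Module.finrank k X using Nat.strong_induction_on generalizing X with
  | _ d ih =>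
  rcases subsingleton_or_nontrivial X with h0 | h0
  · rw [cl_zero (ModuleCat.isZero_of_subsingleton _)]
    exact S.one_mem
  by_cases hI : Indec A X
  · exact hG X hI hX
  have key : ∀ P Q : Submodule A X, IsCompl P Q → Q ≠ ⊥ → cl (ModuleCat.of A P) ∈ S := by
    intro P Q hPQ hQ
    have hfd : FiniteDimensional k P :=
      Module.Finite.of_injective (P.subtype.restrictScalars k) P.injective_subtype
    have hP : P.restrictScalars k ≠ ⊤ := fun h =>
      hQ (eq_bot_of_top_isCompl ((Submodule.restrictScalars_eq_top_iff k A X).1 h ▸ hPQ))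
    exact ih _ (hd ▸ Submodule.finrank_lt hP) ⟨P⟩
      (hX.of_surjective (P.projectionOnto Q hPQ) (Submodule.projectionOnto_surjective hPQ)) rfl
  simp only [Indec, h0, true_and, not_forall, not_or] at hI
  obtain ⟨P, Q, hPQ, hP, hQ⟩ := hI
  have e : ModuleCat.of A P ⊞ ModuleCat.of A Q ≅ ModuleCat.of A X :=
    ModuleCat.biprodIsoProd _ _ ≪≫ (Submodule.prodEquivOfIsCompl P Q hPQ).toModuleIso
  rw [← cl_eq e, ← cl_mul]
  exact S.mul_mem (key P Q hPQ hQ) (key Q P hPQ.symm hP)

variable (k) in
theorem exists_cover [FiniteDimensional k A] (M : Type u) [AddCommGroup M] [Module A M]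
    [Module.Finite A M] :
    ∃ (P : Type u) (_ : AddCommGroup P) (_ : Module A P) (_ : Module.Finite A P)
      (_ : Module.Projective A P) (π : P →ₗ[A] M), Function.Surjective π ∧
        LinearMap.ker π ≤ J A • (⊤ : Submodule A P) := by
  have : IsArtinianRing A := isArtinian_of_tower k inferInstance
  have : IsNoetherianRing A := isNoetherian_of_tower k inferInstance
  obtain ⟨n, π, hπ⟩ := Module.Finite.exists_fin' A M
  obtain ⟨P, ⟨hP, hs⟩, hmin⟩ := (wellFounded_lt (α := Submodule A (Fin n → A))).has_min
    {P | Module.Projective A P ∧ Function.Surjective (π ∘ₗ P.subtype)}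
    ⟨⊤, Module.Projective.of_equiv Submodule.topEquiv.symm, fun x => by
      obtain ⟨y, hy⟩ := hπ x
      exact ⟨⟨y, trivial⟩, hy⟩⟩
  have : Module.Finite A P := Module.Finite.of_injective P.subtype P.injective_subtype
  refine ⟨P, inferInstance, inferInstance, inferInstance, hP, π ∘ₗ P.subtype, hs, ?_⟩
  set ρ := π ∘ₗ P.subtype with hρ
  have hj : Module.jacobson A P ≤ J A • (⊤ : Submodule A P) := by
    have : IsSemisimpleModule A (A ⧸ J A) :=
      (IsArtinian.isSemisimpleModule_iff_jacobson A _).2 (Module.jacobson_quotient_jacobson A A)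
    obtain ⟨m, i, r, h⟩ := inAdd_top (k := k) (A := A)
      (P ⧸ (J A • (⊤ : Submodule A P) : Submodule A P)) fun a ha x => by
        obtain ⟨x, rfl⟩ := Submodule.Quotient.mk_surjective _ x
        rw [← Submodule.Quotient.mk_smul, Submodule.Quotient.mk_eq_zero]
        exact Submodule.smul_mem_smul ha Submodule.mem_top
    have := IsSemisimpleModule.of_injective i (Function.LeftInverse.injective h)
    exact Module.jacobson_le_of_eq_bot (IsSemisimpleModule.jacobson_eq_bot A _)
  refine le_trans ?_ hj
  rw [Module.jacobson, le_sInf_iff]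
  intro N hN
  by_contra hK
  have htop : N ⊔ LinearMap.ker ρ = ⊤ := hN.2 _ (left_lt_sup.2 hK)
  have hsN : Function.Surjective (ρ ∘ₗ N.subtype) := by
    intro x
    obtain ⟨y, rfl⟩ := hs x
    obtain ⟨a, ha, b, hb, rfl⟩ := Submodule.mem_sup.1 (htop ▸ Submodule.mem_top (x := y))
    exact ⟨⟨a, ha⟩, by simp [LinearMap.mem_ker.1 hb]⟩
  obtain ⟨g0, hg0⟩ := Module.projective_lifting_property (ρ ∘ₗ N.subtype) ρ hsN
  let g : Module.End A P := N.subtype ∘ₗ g0
  have hg : ∀ x, ρ (g x) = ρ x := fun x => LinearMap.congr_fun hg0 x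
  have hgm : ∀ m x, ρ ((g ^ m) x) = ρ x := by
    intro m
    induction m with
    | zero => intro x; rfl
    | succ m ih => intro x; rw [pow_succ', Module.End.mul_apply, hg, ih]
  obtain ⟨m, hm⟩ := Filter.eventually_atTop.1 (LinearMap.eventually_isCompl_ker_pow_range_pow g)
  have hc := hm (m + 1) (Nat.le_succ m)
  set R := LinearMap.range (g ^ (m + 1)) with hR
  have hRN : R ≤ N := by
    rintro _ ⟨x, rfl⟩
    rw [pow_succ', Module.End.mul_apply]
    exact (g0 _).2
  have hRp : Module.Projective A R :=
    Module.Projective.of_split R.subtype (R.projectionOnto _ hc.symm)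
      (LinearMap.ext fun x => Submodule.projectionOnto_apply_left hc.symm x)
  refine hmin (R.map P.subtype) ⟨Module.Projective.of_equiv
    (R.equivMapOfInjective P.subtype P.injective_subtype), fun x => ?_⟩ ?_
  · obtain ⟨y, rfl⟩ := hs x
    exact ⟨⟨((g ^ (m + 1)) y : P), Submodule.mem_map_of_mem ⟨y, rfl⟩⟩, hgm _ y⟩
  · refine lt_of_le_of_ne (Submodule.map_subtype_le _ _) fun h => hN.1 ?_
    rw [eq_top_iff]
    intro x _
    have : (x : Fin n → A) ∈ R.map P.subtype := h.symm ▸ x.2
    obtain ⟨y, hy, e⟩ := this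
    exact (Subtype.ext e : y = x) ▸ hRN hy

theorem shortExact_of {M N P : Type u} [AddCommGroup M] [Module A M] [AddCommGroup N] [Module A N]
    [AddCommGroup P] [Module A P] (f : M →ₗ[A] P) (g : P →ₗ[A] N) (hf : Function.Injective f)
    (hfg : Function.Exact f g) (hg : Function.Surjective g) :
    (ShortComplex.moduleCatMk f g hfg.linearMap_comp_eq_zero).ShortExact :=
  ModuleCat.shortComplex_shortExact _ hfg hf hg

theorem main [IsAlgClosed k] [FiniteDimensional k A] (hT : Tame k A) :
    ∃ N : ℕ, ∀ (M : Type u) [AddCommGroup M] [Module A M] [Module.Finite A M] (d : ℕ),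
      HasProjectiveDimensionLE (ModuleCat.of A M) d →
        HasProjectiveDimensionLE (ModuleCat.of A M) N := by
  classical
  have : IsArtinianRing A := isArtinian_of_tower k inferInstance
  have : IsNoetherianRing A := isNoetherian_of_tower k inferInstance
  obtain ⟨b, hb⟩ := step1 hT.tameMat
  obtain ⟨n, Gs, hGs⟩ := step2 hT.tameMat b
  obtain ⟨G, hG⟩ := main_rad hT
  obtain ⟨N, hN⟩ := igusa_todorov.{u} (k := k) (fun X : ModuleCat.{u} A => Module.Finite A X)
    (fun X hX => by
      obtain ⟨r, π, hπ⟩ := Module.Finite.exists_fin' A X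
      exact ⟨ModuleCat.of A (LinearMap.ker π), ModuleCat.of A (Fin r → A), _, _, _,
        shortExact_of _ π (Submodule.injective_subtype _) (LinearMap.exact_subtype_ker_map π) hπ,
        ModuleCat.projective_of_categoryTheory_projective _,
        Module.Finite.of_injective _ (Submodule.injective_subtype _)⟩)
    (fun X Y hX hY => by
      let := ModuleCat.moduleOfAlgebraModule (k := k) X
      let := ModuleCat.moduleOfAlgebraModule (k := k) Y
      have := ModuleCat.isScalarTower_of_algebra_moduleCat (k := k) X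
      have := ModuleCat.isScalarTower_of_algebra_moduleCat (k := k) Y
      have : FiniteDimensional k X := Module.Finite.trans A X
      have : FiniteDimensional k Y := Module.Finite.trans A Y
      let L : (X ⟶ Y) →ₗ[k] (X →ₗ[k] Y) :=
        { toFun := fun f => f.hom.restrictScalars k
          map_add' := fun _ _ => rfl
          map_smul' := fun _ _ => rfl }
      exact FiniteDimensional.of_injective L fun f g h =>
        ModuleCat.hom_ext (LinearMap.ext fun x => LinearMap.congr_fun h x))
    (Finset.univ.image fun i => cl (ModuleCat.of A (Gs i))) (ModuleCat.of A G) inferInstance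
  have mem : ∀ (M : Type u) [AddCommGroup M] [Module A M] [Module.Finite A M],
      cl (ModuleCat.of A (J A • (⊤ : Submodule A M) : Submodule A M)) ∈ Submonoid.closure
        ((Finset.univ.image fun i => cl (ModuleCat.of A (Gs i)) : Finset _) :
          Set (Cl (ModuleCat.{u} A))) := by
    intro M _ _ _
    let : Module k M := Module.compHom M (algebraMap k A)
    have : IsScalarTower k A M := ⟨fun c a x => by rw [Algebra.smul_def, mul_smul]; rfl⟩
    have : FiniteDimensional k M := Module.Finite.trans A M
    have : FiniteDimensional k (J A • (⊤ : Submodule A M) : Submodule A M) :=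
      Module.Finite.of_injective ((J A • (⊤ : Submodule A M)).subtype.restrictScalars k)
        (Submodule.injective_subtype _)
    refine cl_mem (k := k) (fun X hX hF => ?_)
      ⟨(J A • (⊤ : Submodule A M) : Submodule A M)⟩ inFac_rad
    obtain ⟨i, ⟨e⟩⟩ := hGs X ⟨hX, hb X hX hF⟩ hF
    rw [cl_eq e.toModuleIso]
    exact Submonoid.subset_closure (by simp)
  refine ⟨N + 1, fun M _ _ _ d hd => ?_⟩
  obtain ⟨P, _, _, _, hP, π, hπ, hK⟩ := exists_cover k (A := A) M
  have s1 := shortExact_of _ π (Submodule.injective_subtype _)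
    (LinearMap.exact_subtype_ker_map π) hπ
  have pP : Projective (ModuleCat.of A P) := ModuleCat.projective_of_categoryTheory_projective _
  have hmap : (J A • (⊤ : Submodule A P)).map π = J A • (⊤ : Submodule A M) := by
    rw [Submodule.map_smul'', Submodule.map_top, LinearMap.range_eq_top.2 hπ]
  let g : (J A • (⊤ : Submodule A P) : Submodule A P) →ₗ[A]
      (J A • (⊤ : Submodule A M) : Submodule A M) :=
    π.restrict fun x hx => hmap ▸ Submodule.mem_map_of_mem hx
  have s2 := shortExact_of (Submodule.inclusion hK) g (Submodule.inclusion_injective hK)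
    (fun x => ⟨fun h => ⟨⟨x.1, congrArg Subtype.val h⟩, rfl⟩, by
      rintro ⟨y, rfl⟩
      exact Subtype.ext y.2⟩)
    (fun y => by
      obtain ⟨x, hx, e⟩ := (hmap.symm ▸ y.2 : y.1 ∈ (J A • (⊤ : Submodule A P)).map π)
      exact ⟨⟨x, hx⟩, Subtype.ext e⟩)
  have d1 : HasProjectiveDimensionLT (ModuleCat.of A (LinearMap.ker π)) (d + 1) :=
    (s1.hasProjectiveDimensionLT_X₃_iff d pP).1
      (hasProjectiveDimensionLT_of_ge (ModuleCat.of A M) (d + 1) (d + 2) (by omega))
  obtain ⟨r, i, p, hip⟩ := (hG M).1
  have d2 : HasProjectiveDimensionLT (ModuleCat.of A (LinearMap.ker π)) N := hN _ s2 (mem P) (mem M)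
    (Module.Finite.of_injective _ (Submodule.injective_subtype _))
    ⟨r, fun l => ModuleCat.ofHom (LinearMap.proj l ∘ₗ i),
      fun l => ModuleCat.ofHom (p ∘ₗ LinearMap.single A (fun _ : Fin r => G) l), by
        refine ModuleCat.hom_ext (LinearMap.ext fun x => ?_)
        rw [ModuleCat.hom_sum, LinearMap.sum_apply]
        change ∑ l, p (Pi.single l (i x l)) = x
        rw [← map_sum, Finset.univ_sum_single, hip]⟩ (d + 1) d1
  exact (s1.hasProjectiveDimensionLT_X₃_iff N pP).2
    (hasProjectiveDimensionLT_of_ge (ModuleCat.of A (LinearMap.ker π)) N (N + 1) (by omega))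

end Pool.Agent.FS.FinDim
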